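import Pool.Agent.Helper89.HY.St

set_option autoImplicit false

namespace Pool.Agent.Helper69.HY

open Finset Matrix
open Pool.Agent.Helper56.SW (Tm Sm Nq N)
open Pool.Agent.Helper89.HY

/-- the box -/
noncomputable def bx6 (A : Fin 6 → ℕ) : Finset (Fin 6 → ℤ) :=
  Fintype.piFinset fun i => Icc (-(A i : ℤ)) (A i)

open Classical in
lemma count (p : ℕ) (b : Fin 6 → ZMod p) (A : Fin 6 → ℕ) (V : Finset (Fin 6 → ZMod p)) :
    ((bx6 A).filter fun h => (fun i => b i * (h i : ZMod p)) ∈ V).card =
      ∑ x ∈ V, ∏ i : Fin 6, nb p (b i) (A i) (x i) := by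
  rw [card_eq_sum_card_fiberwise (f := fun (h : Fin 6 → ℤ) (i : Fin 6) => b i * (h i : ZMod p))
    (t := V) (by
      intro h hh
      exact (mem_filter.1 (mem_coe.1 hh)).2)]
  refine sum_congr rfl fun x hx => ?_
  have : (((bx6 A).filter fun h => (fun i => b i * (h i : ZMod p)) ∈ V).filter
      fun h => (fun i => b i * (h i : ZMod p)) = x) =
      Fintype.piFinset fun i => (Icc (-(A i : ℤ)) (A i)).filter
        fun h : ℤ => b i * (h : ZMod p) = x i := by
    ext h
    simp only [mem_filter, Fintype.mem_piFinset, bx6]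
    constructor
    · rintro ⟨⟨h1, -⟩, h3⟩ i
      exact ⟨h1 i, congrFun h3 i⟩
    · intro h1
      have h3 : (fun i => b i * (h i : ZMod p)) = x := funext fun i => (h1 i).2
      exact ⟨⟨fun i => (h1 i).1, by rw [h3]; exact hx⟩, h3⟩
  rw [this, Fintype.card_piFinset]
  rfl

theorem hCT : StCT := by
  classical
  intro p hp a₁ a₂ H₁ H₂ h1 h2
  set b : Fin 6 → ZMod p := fun i => if (i : ℕ) % 2 = 0 then (a₁ : ZMod p) else (a₂ : ZMod p) with hb
  set A : Fin 6 → ℕ := fun i => if (i : ℕ) % 2 = 0 then ⌊H₁⌋₊ else ⌊H₂⌋₊ with hA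
  have key : Nq 6 p a₁ a₂ H₁ H₂ ≤
      ((bx6 A).filter fun h => (fun i => b i * (h i : ZMod p)) ∈ Vg p 1).card +
      ((bx6 A).filter fun h => (fun i => b i * (h i : ZMod p)) ∈ Vg p (-1)).card := by
    refine le_trans ?_ (card_union_le _ _)
    unfold Nq
    set S := ((bx6 A).filter fun h => (fun i => b i * (h i : ZMod p)) ∈ Vg p 1) ∪
      ((bx6 A).filter fun h => (fun i => b i * (h i : ZMod p)) ∈ Vg p (-1)) with hS
    have hmem : ∀ h : Fin 6 → ℤ, ((∀ i : Fin 6, |(h i : ℝ)| ≤ if (i : ℕ) % 2 = 0 then H₁ else H₂) ∧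
        ∃ γ : ZMod p, γ ^ 2 = 1 ∧
        (List.ofFn fun i : Fin 6 =>
        Tm ((if (i : ℕ) % 2 = 0 then (a₁ : ZMod p) else (a₂ : ZMod p)) * (h i : ZMod p)) * Sm p).prod
        = γ • (1 : Matrix (Fin 2) (Fin 2) (ZMod p))) → h ∈ S := by
      rintro h ⟨hh, γ, hγ, hw⟩
      have hbox : h ∈ bx6 A := by
        rw [bx6, Fintype.mem_piFinset]
        intro i
        have := hh i
        have hle : |h i| ≤ (A i : ℤ) := by
          have h3 : (|h i|.toNat : ℕ) ≤ A i := by
            simp only [hA]
            split_ifs with hi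
            · rw [if_pos hi] at this
              refine Nat.le_floor ?_
              have h4 : ((|h i|.toNat : ℕ) : ℝ) = |(h i : ℝ)| := by
                have h5 : ((|h i|.toNat : ℕ) : ℤ) = |h i| := Int.toNat_of_nonneg (abs_nonneg _)
                have h6 : (((|h i|.toNat : ℕ) : ℤ) : ℝ) = ((|h i| : ℤ) : ℝ) := by rw [h5]
                rw [Int.cast_abs] at h6
                exact_mod_cast h6
              rw [h4]
              exact this
            · rw [if_neg hi] at this
              refine Nat.le_floor ?_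
              have h4 : ((|h i|.toNat : ℕ) : ℝ) = |(h i : ℝ)| := by
                have h5 : ((|h i|.toNat : ℕ) : ℤ) = |h i| := Int.toNat_of_nonneg (abs_nonneg _)
                have h6 : (((|h i|.toNat : ℕ) : ℤ) : ℝ) = ((|h i| : ℤ) : ℝ) := by rw [h5]
                rw [Int.cast_abs] at h6
                exact_mod_cast h6
              rw [h4]
              exact this
          omega
        rw [mem_Icc]
        exact abs_le.1 hle
      have hγ' : γ = 1 ∨ γ = -1 := by
        rcases mul_eq_zero.1 (show (γ - 1) * (γ + 1) = 0 by linear_combination hγ) with h7 | h7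
        · left; linear_combination h7
        · right; linear_combination h7
      rw [hS, mem_union, mem_filter, mem_filter]
      rcases hγ' with hγ' | hγ'
      · left
        refine ⟨hbox, ?_⟩
        unfold Vg
        rw [mem_filter]
        refine ⟨mem_univ _, ?_⟩
        rw [← hγ']
        exact hw
      · right
        refine ⟨hbox, ?_⟩
        unfold Vg
        rw [mem_filter]
        refine ⟨mem_univ _, ?_⟩
        rw [← hγ']
        exact hw
    have h3 := Nat.card_le_card_of_injective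
      (fun h : {h : Fin 6 → ℤ // (∀ i : Fin 6, |(h i : ℝ)| ≤ if (i : ℕ) % 2 = 0 then H₁ else H₂) ∧
        ∃ γ : ZMod p, γ ^ 2 = 1 ∧
        (List.ofFn fun i : Fin 6 =>
        Tm ((if (i : ℕ) % 2 = 0 then (a₁ : ZMod p) else (a₂ : ZMod p)) * (h i : ZMod p)) * Sm p).prod
        = γ • (1 : Matrix (Fin 2) (Fin 2) (ZMod p))} => (⟨h.1, hmem h.1 h.2⟩ : S))
      (by
        intro x y hxy
        apply Subtype.ext
        exact congrArg (fun z : S => z.1) hxy)
    rw [Nat.card_eq_fintype_card (α := S), Fintype.card_coe] at h3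
    exact h3
  rw [count, count] at key
  have key' : ((Nq 6 p a₁ a₂ H₁ H₂ : ℕ) : ℝ) ≤
      ((∑ x ∈ Vg p 1, ∏ i : Fin 6, nb p (b i) (A i) (x i) +
        ∑ x ∈ Vg p (-1), ∏ i : Fin 6, nb p (b i) (A i) (x i) : ℕ) : ℝ) := by
    exact_mod_cast key
  push_cast at key'
  exact key'

end Pool.Agent.Helper69.HY
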